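import Pool.Agent.L7h49.PM.Def2

set_option autoImplicit false

/-!
# Project PM, second half: part HOOK (joining two neighbouring tracks by an edge)
-/

namespace Pool.Agent.L7h88.PM

open Pool.Agent.L7h49.PM

theorem abs_coord_le (p : E2) (m : Fin 2) : |p m| ≤ ‖p‖ := by
  have := PiLp.norm_apply_le p m
  simpa using this

theorem pt_zero (a b : ℝ) : (pt a b) 0 = a := by simp [pt]

theorem pt_one (a b : ℝ) : (pt a b) 1 = b := by simp [pt]

/-- The vertical segment `{x} × [a, b]`. -/
def Seg (x a b : ℝ) : Set E2 := {p | p 0 = x ∧ a ≤ p 1 ∧ p 1 ≤ b}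

theorem seg_convex (x a b : ℝ) : Convex ℝ (Seg x a b) := by
  intro p hp q hq s t hs ht hst
  obtain ⟨hp0, hp1, hp2⟩ := hp
  obtain ⟨hq0, hq1, hq2⟩ := hq
  refine ⟨?_, ?_, ?_⟩
  · simp only [PiLp.add_apply, PiLp.smul_apply, smul_eq_mul]
    rw [hp0, hq0, ← add_mul, hst, one_mul]
  · simp only [PiLp.add_apply, PiLp.smul_apply, smul_eq_mul]
    have e : a = s * a + t * a := by rw [← add_mul, hst, one_mul]
    rw [e]
    exact add_le_add (mul_le_mul_of_nonneg_left hp1 hs) (mul_le_mul_of_nonneg_left hq1 ht)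
  · simp only [PiLp.add_apply, PiLp.smul_apply, smul_eq_mul]
    have e : b = s * b + t * b := by rw [← add_mul, hst, one_mul]
    rw [e]
    exact add_le_add (mul_le_mul_of_nonneg_left hp2 hs) (mul_le_mul_of_nonneg_left hq2 ht)

theorem s_HOOK (h1 : S_CON) (h2 : S_ROUTE) (h3 : S_SPL) : S_HOOK := by
  intro V G f C hR t X eta B i j hSt hij hnb
  have hC : 1 ≤ C := hR.one
  have hne : i ≠ j := fun h => by subst h; exact lt_irrefl _ hij
  obtain ⟨B', hBB, hSt', hh, hl⟩ := h2 V G f C hR t X (X + 100 * C) eta eta B hSt (le_refl _)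
    (fun k => le_refl _) (by
      intro k l hkl
      have := hSt.sep k l hkl
      rcases le_abs.1 this with h | h
      · right; linarith
      · left; linarith)
  obtain ⟨hcon, hfat⟩ := h1 V G f C hR (Seg (X + 40 * C) (eta i) (eta j))
  have hmem : ∀ (y : ℝ) (w : V), eta i ≤ y → y ≤ eta j → ‖f w - pt (X + 40 * C) y‖ ≤ C →
      w ∈ Fat G f C (Seg (X + 40 * C) (eta i) (eta j)) := by
    intro y w hy1 hy2 hw
    refine ⟨w, ⟨pt (X + 40 * C) y, ⟨pt_zero _ _, ?_, ?_⟩, hw⟩, ?_⟩
    · rw [pt_one]; exact hy1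
    · rw [pt_one]; exact hy2
    · rw [SimpleGraph.dist_self]; push_cast; linarith
  have hTcon : (G.induce (Fat G f C (Seg (X + 40 * C) (eta i) (eta j)))).Connected := by
    refine hcon (seg_convex _ _ _).isPreconnected ⟨pt (X + 40 * C) (eta i), pt_zero _ _, ?_, ?_⟩
    · rw [pt_one]
    · rw [pt_one]; exact hij.le
  have hTbd : ∀ w ∈ Fat G f C (Seg (X + 40 * C) (eta i) (eta j)),
      X + 34 * C ≤ f w 0 ∧ f w 0 ≤ X + 46 * C ∧ eta i - 6 * C ≤ f w 1 ∧ f w 1 ≤ eta j + 6 * C := by
    intro w hw
    obtain ⟨p, ⟨hp0, hp1, hp2⟩, hp⟩ := hfat w hw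
    have e0 := (abs_coord_le (f w - p) 0).trans hp
    have e1 := (abs_coord_le (f w - p) 1).trans hp
    rw [PiLp.sub_apply, abs_le] at e0 e1
    refine ⟨?_, ?_, ?_, ?_⟩ <;> linarith [e0.1, e0.2, e1.1, e1.2]
  obtain ⟨wi, hwi⟩ := hR.net (pt (X + 40 * C) (eta i))
  obtain ⟨wj, hwj⟩ := hR.net (pt (X + 40 * C) (eta j))
  obtain ⟨Y, hYT, hYd, hYc, u, hu, v, hv, huv⟩ := h3 V G (B' j) (B' i)
    (Fat G f C (Seg (X + 40 * C) (eta i) (eta j))) hTcon
    ⟨wj, hmem _ _ hij.le (le_refl _) hwj.le,
      hl j (X + 40 * C) wj (by linarith) (by linarith) hwj.le⟩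
    ⟨wi, hmem _ _ (le_refl _) hij.le hwi.le,
      hl i (X + 40 * C) wi (by linarith) (by linarith) hwi.le⟩
    (hSt'.disj j i hne.symm) (hSt'.conn j)
  have hYdis : ∀ k, k ≠ j → Disjoint Y (B' k) := by
    intro k hkj
    by_cases hki : k = i
    · subst hki; exact hYd
    rw [Set.disjoint_left]
    intro w hwY hwk
    obtain ⟨b1, b2, b3, b4⟩ := hTbd w (hYT hwY)
    rcases hh k w hwk with h | ⟨h, h'⟩
    · have := (hSt.right k w h).1
      linarith
    · rcases hnb k hki hkj with h0 | h0
      · have := hSt.sep k i hki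
        rcases le_abs.1 this with h5 | h5 <;> linarith
      · have := hSt.sep k j hkj
        rcases le_abs.1 this with h5 | h5 <;> linarith
  refine ⟨Function.update B' j (B' j ∪ Y), ?_, ?_, ?_⟩
  · intro k
    by_cases hk : k = j
    · subst hk
      rw [Function.update_self]
      exact (hBB k).trans Set.subset_union_left
    · rw [Function.update_of_ne hk]
      exact hBB k
  · refine ⟨?_, ?_, hSt'.sep, ?_, ?_⟩
    · intro k
      by_cases hk : k = j
      · subst hk
        rw [Function.update_self]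
        exact hYc
      · rw [Function.update_of_ne hk]
        exact hSt'.conn k
    · intro k l hkl
      by_cases hk : k = j
      · subst hk
        rw [Function.update_self, Function.update_of_ne hkl.symm]
        exact Set.disjoint_union_left.2 ⟨hSt'.disj _ _ hkl, hYdis l hkl.symm⟩
      · rw [Function.update_of_ne hk]
        by_cases hl' : l = j
        · subst hl'
          rw [Function.update_self]
          exact Set.disjoint_union_right.2 ⟨hSt'.disj _ _ hkl, (hYdis k hk).symm⟩
        · rw [Function.update_of_ne hl']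
          exact hSt'.disj _ _ hkl
    · intro k w hw
      by_cases hk : k = j
      · subst hk
        rw [Function.update_self] at hw
        rcases hw with hw | hw
        · exact hSt'.right k w hw
        · obtain ⟨b1, b2, b3, b4⟩ := hTbd w (hYT hw)
          refine ⟨by linarith, fun h => ?_⟩
          linarith
      · rw [Function.update_of_ne hk] at hw
        exact hSt'.right k w hw
    · intro k w hw
      have h5 := hSt'.endp k w hw
      by_cases hk : k = j
      · subst hk
        rw [Function.update_self]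
        exact Or.inl h5
      · rw [Function.update_of_ne hk]
        exact h5
  · refine ⟨v, ?_, u, ?_, huv.symm⟩
    · rw [Function.update_of_ne hne]; exact hv
    · rw [Function.update_self]; exact hu

end Pool.Agent.L7h88.PM
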